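import Pool.Agent.Helper43.SC.Fr
import Pool.Agent.Helper43.LJ.Maj
import Pool.Agent.Helper43.LJ.Lev

/-! Bridge, first part: majorants with bounds, one digit and one frequency. -/

set_option autoImplicit false

namespace Pool.Agent.Helper43.SC

open Finset
open Pool.Agent.Helper7.SC (law ka Kz StT StB StL)
open Pool.Agent.Helper57.LJ (dig)

lemma e_eq (t : ℝ) : Pool.Agent.Helper57.PC.e t = Pool.Agent.Helper7.SC.e t := by
  unfold Pool.Agent.Helper57.PC.e Pool.Agent.Helper7.SC.e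
  congr 1
  ring

/-- the majorants, with at least one frequency and a bound for the coefficients -/
lemma maj_bdd (b : ℕ) (hb : 2 ≤ b) (ε : ℝ) (hε : 0 < ε) :
    ∃ (H : ℕ) (M : ℝ) (c : ℕ → ℤ → ℂ), 1 ≤ H ∧ 1 ≤ M ∧ (∀ d k, ‖c d k‖ ≤ M) ∧
      (∀ d, (c d 0).re ≤ 1 / b + ε) ∧
      ∀ d, ∀ y : ℝ, (if Nat.floor ((b : ℝ) * Int.fract y) = d then (1 : ℝ) else 0) ≤
        (∑ k ∈ Icc (-(H : ℤ)) H, c d k * Pool.Agent.Helper7.SC.e (k * y)).re := by
  have hb0 : (0 : ℝ) < b := by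
    have : 0 < b := by omega
    exact_mod_cast this
  obtain ⟨H₀, c₀, h₀⟩ := Pool.Agent.Helper43.LJ.maj b hb ε hε
  refine ⟨H₀ + 1, 1 + ∑ d ∈ range b, ∑ k ∈ Icc (-(H₀ : ℤ)) H₀, ‖c₀ d k‖,
    fun d k => if d < b ∧ k ∈ Icc (-(H₀ : ℤ)) H₀ then c₀ d k else 0, by omega, ?_, ?_, ?_, ?_⟩
  · have : 0 ≤ ∑ d ∈ range b, ∑ k ∈ Icc (-(H₀ : ℤ)) H₀, ‖c₀ d k‖ :=
      Finset.sum_nonneg fun _ _ => Finset.sum_nonneg fun _ _ => norm_nonneg _
    linarith
  · intro d k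
    have h0 : 0 ≤ ∑ d ∈ range b, ∑ k ∈ Icc (-(H₀ : ℤ)) H₀, ‖c₀ d k‖ :=
      Finset.sum_nonneg fun _ _ => Finset.sum_nonneg fun _ _ => norm_nonneg _
    show ‖(if d < b ∧ k ∈ Icc (-(H₀ : ℤ)) H₀ then c₀ d k else 0 : ℂ)‖ ≤ _
    by_cases h : d < b ∧ k ∈ Icc (-(H₀ : ℤ)) H₀
    · rw [if_pos h]
      have h1 : ‖c₀ d k‖ ≤ ∑ k ∈ Icc (-(H₀ : ℤ)) H₀, ‖c₀ d k‖ :=
        Finset.single_le_sum (f := fun k => ‖c₀ d k‖) (fun _ _ => norm_nonneg _) h.2
      have h2 : ∑ k ∈ Icc (-(H₀ : ℤ)) H₀, ‖c₀ d k‖ ≤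
          ∑ d ∈ range b, ∑ k ∈ Icc (-(H₀ : ℤ)) H₀, ‖c₀ d k‖ :=
        Finset.single_le_sum (f := fun d => ∑ k ∈ Icc (-(H₀ : ℤ)) H₀, ‖c₀ d k‖)
          (fun _ _ => Finset.sum_nonneg fun _ _ => norm_nonneg _) (mem_range.2 h.1)
      linarith
    · rw [if_neg h, norm_zero]
      linarith
  · intro d
    show (if d < b ∧ (0 : ℤ) ∈ Icc (-(H₀ : ℤ)) H₀ then c₀ d 0 else 0 : ℂ).re ≤ _
    by_cases h : d < b ∧ (0 : ℤ) ∈ Icc (-(H₀ : ℤ)) H₀
    · rw [if_pos h]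
      exact (h₀ d h.1).2
    · rw [if_neg h, Complex.zero_re]
      positivity
  · intro d y
    by_cases hd : d < b
    · refine ((h₀ d hd).1 y).trans (le_of_eq ?_)
      congr 1
      refine Finset.sum_subset_zero_on_sdiff ?_ ?_ ?_
      · intro k hk
        rw [Finset.mem_Icc] at hk ⊢
        push_cast
        omega
      · intro k hk
        rw [Finset.mem_sdiff] at hk
        show (if d < b ∧ k ∈ Icc (-(H₀ : ℤ)) H₀ then c₀ d k else 0) *
          Pool.Agent.Helper7.SC.e (k * y) = 0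
        rw [if_neg (fun h => hk.2 h.2), zero_mul]
      · intro k hk
        show c₀ d k * Pool.Agent.Helper57.PC.e (k * y) =
          (if d < b ∧ k ∈ Icc (-(H₀ : ℤ)) H₀ then c₀ d k else 0) *
            Pool.Agent.Helper7.SC.e (k * y)
        rw [if_pos ⟨hd, hk⟩, e_eq]
    · have h1 : Nat.floor ((b : ℝ) * Int.fract y) ≠ d := by
        intro h
        have h2 : (b : ℝ) * Int.fract y < b := by
          have := Int.fract_lt_one y
          nlinarith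
        have h3 : Nat.floor ((b : ℝ) * Int.fract y) < b := by
          rw [Nat.floor_lt (mul_nonneg hb0.le (Int.fract_nonneg y))]
          exact h2
        omega
      rw [if_neg h1]
      have h2 : ∑ k ∈ Icc (-((H₀ + 1 : ℕ) : ℤ)) ((H₀ + 1 : ℕ) : ℤ),
          (if d < b ∧ k ∈ Icc (-(H₀ : ℤ)) H₀ then c₀ d k else 0) *
            Pool.Agent.Helper7.SC.e (k * y) = 0 := by
        refine Finset.sum_eq_zero fun k _ => ?_
        rw [if_neg (fun h => hd h.1), zero_mul]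
      rw [h2, Complex.zero_re]

/-- one digit and one frequency -/
lemma corr_le (hT : StT) (hB : StB) (hL : StL) (b q r m K : ℕ) (hb : 2 ≤ b)
    (hrm : r + m * q ≤ K) (p : ℝ) (hp0 : 0 ≤ p) (hp1 : p ≤ 1) [Fintype (ZMod (b ^ K))]
    (M : ℝ) (hM : 0 < M) (g : ZMod (b ^ K) → ℂ) (hg : ∀ n, ‖g n‖ ≤ 1)
    (J : ZMod (b ^ K) → ℕ) (c : ℕ → ℂ) (hc : ∀ d, ‖c d‖ ≤ M) :
    ‖∑ n, g n * c (J n)‖ ≤ M * (Real.sqrt ((b : ℝ) ^ K *
        (∑ n, ∑ t, law b q r m K p t * (g n * (starRingEnd ℂ) (g (n + t)))).re) +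
      4 * (b - 1) * p * ∑ j ∈ range K, (#{n | J n ≠ J (n + (b : ZMod (b ^ K)) ^ j)} : ℝ)) := by
  obtain ⟨hl0, hl1'⟩ := hL b q r m K p hb hp0 hp1
  have hl1 : ∑ t, law b q r m K p t = 1 := hl1'
  have hMC : (M : ℂ) ≠ 0 := by exact_mod_cast hM.ne'
  have hc' : ∀ n, ‖c (J n) / (M : ℂ)‖ ≤ 1 := by
    intro n
    rw [norm_div, Complex.norm_real, Real.norm_of_nonneg hM.le, div_le_one hM]
    exact hc _
  have hT1 := hT b q r m K p hb hp0 hp1 g (fun n => c (J n) / (M : ℂ)) hc'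
  have hB1 := hB b q r m K p hb hrm hp0 hp1 J
  have e1 : ∑ n, g n * c (J n) = (M : ℂ) *
      (∑ n, ∑ t, law b q r m K p t * (g n * (c (J (n + t)) / (M : ℂ))) +
        ∑ n, ∑ t, law b q r m K p t * (g n * (c (J n) / (M : ℂ) - c (J (n + t)) / (M : ℂ)))) := by
    rw [← Finset.sum_add_distrib, Finset.mul_sum]
    refine Finset.sum_congr rfl fun n _ => ?_
    rw [← Finset.sum_add_distrib]
    have e2 : ∀ t, (law b q r m K p t : ℂ) * (g n * (c (J (n + t)) / (M : ℂ))) +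
        law b q r m K p t * (g n * (c (J n) / (M : ℂ) - c (J (n + t)) / (M : ℂ))) =
        law b q r m K p t * (g n * (c (J n) / (M : ℂ))) := by
      intro t
      ring
    rw [Finset.sum_congr rfl fun t _ => e2 t, ← Finset.sum_mul, ← Complex.ofReal_sum, hl1,
      Complex.ofReal_one, one_mul]
    field_simp
  have h2 : ‖∑ n, ∑ t, (law b q r m K p t : ℂ) *
      (g n * (c (J n) / (M : ℂ) - c (J (n + t)) / (M : ℂ)))‖ ≤
      2 * ∑ n, ∑ t, law b q r m K p t * (if J n = J (n + t) then 0 else 1) := by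
    refine (norm_sum_le _ _).trans ?_
    rw [Finset.mul_sum]
    refine Finset.sum_le_sum fun n _ => ?_
    refine (norm_sum_le _ _).trans ?_
    rw [Finset.mul_sum]
    refine Finset.sum_le_sum fun t _ => ?_
    rw [norm_mul, norm_mul, Complex.norm_real, Real.norm_of_nonneg (hl0 t)]
    by_cases h : J n = J (n + t)
    · rw [if_pos h, ← h, sub_self, norm_zero]
      simp
    · rw [if_neg h, mul_one]
      have h3 : ‖c (J n) / (M : ℂ) - c (J (n + t)) / (M : ℂ)‖ ≤ 2 := by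
        refine (norm_sub_le _ _).trans ?_
        have h4 := hc' n
        have h5 := hc' (n + t)
        linarith
      calc law b q r m K p t * (‖g n‖ * ‖c (J n) / (M : ℂ) - c (J (n + t)) / (M : ℂ)‖)
          ≤ law b q r m K p t * (1 * 2) := by
            refine mul_le_mul_of_nonneg_left ?_ (hl0 t)
            exact mul_le_mul (hg n) h3 (norm_nonneg _) zero_le_one
        _ = 2 * law b q r m K p t := by ring
  have h3 : ‖∑ n, ∑ t, (law b q r m K p t : ℂ) * (g n * (c (J (n + t)) / (M : ℂ)))‖ ≤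
      Real.sqrt ((b : ℝ) ^ K *
        (∑ n, ∑ t, law b q r m K p t * (g n * (starRingEnd ℂ) (g (n + t)))).re) :=
    Real.le_sqrt_of_sq_le hT1
  rw [e1, norm_mul, Complex.norm_real, Real.norm_of_nonneg hM.le]
  refine mul_le_mul_of_nonneg_left ?_ hM.le
  refine (norm_add_le _ _).trans (add_le_add h3 (h2.trans ?_))
  calc 2 * ∑ n, ∑ t, law b q r m K p t * (if J n = J (n + t) then 0 else 1)
      ≤ 2 * (2 * (b - 1) * p *
        ∑ j ∈ range K, (#{n | J n ≠ J (n + (b : ZMod (b ^ K)) ^ j)} : ℝ)) :=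
        mul_le_mul_of_nonneg_left hB1 (by norm_num)
    _ = _ := by ring

end Pool.Agent.Helper43.SC
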