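import Pool.Agent.Helper43.SC.Br3

/-! Bridge, fourth part: one digit and one frequency on `D`; the sums. -/

set_option autoImplicit false

namespace Pool.Agent.Helper43.SC

open Finset
open Pool.Agent.Helper7.SC (law ka Kz StT StB StL)
open Pool.Agent.Helper57.LJ (dig)

/-- the quadratic form of the phases `y` -/
noncomputable def GG (b q r K : ℕ) (p : ℝ) (D : Finset ℕ) (y : ℕ → ℝ) : ℝ :=
  ∑ n ∈ D, ∑ n' ∈ D, law b q r ((K - r) / q) K p ((n' : ZMod (b ^ K)) - n) *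
    Real.cos (2 * Real.pi * (y n - y n'))

/-- the sensitivity of one function -/
noncomputable def Sn (b K : ℕ) (J : ℕ → ℕ) : ℝ :=
  ∑ j ∈ range K, (#{n ∈ range (b ^ K) | J n ≠ J ((n + b ^ j) % b ^ K)} : ℝ)

lemma corr_D (hT : StT) (hB : StB) (hL : StL) (b q r K : ℕ) (hb : 2 ≤ b)
    (hr : r ≤ K) (p : ℝ) (hp0 : 0 ≤ p) (hp1 : p ≤ 1) (M : ℝ) (hM : 0 < M)
    (D : Finset ℕ) (hD : D ⊆ range (b ^ K)) (y : ℕ → ℝ) (J : ℕ → ℕ) (c : ℕ → ℂ)
    (hc : ∀ d, ‖c d‖ ≤ M) :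
    0 ≤ GG b q r K p D y ∧
    ‖∑ n ∈ D, Pool.Agent.Helper7.SC.e (y n) * c (J n)‖ ≤
      M * (Real.sqrt ((b : ℝ) ^ K * GG b q r K p D y) + 4 * (b - 1) * p * Sn b K J) := by
  have hx : 0 < b ^ K := Nat.pow_pos (by omega)
  have : NeZero (b ^ K) := ⟨hx.ne'⟩
  let _ : Fintype (ZMod (b ^ K)) := ZMod.fintype (b ^ K)
  have hrm : r + (K - r) / q * q ≤ K := by
    have := Nat.div_mul_le_self (K - r) q
    omega
  obtain ⟨g, hg⟩ : ∃ g : ZMod (b ^ K) → ℂ, g = fun n =>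
    if n.val ∈ D then Pool.Agent.Helper7.SC.e (y n.val) else 0 := ⟨_, rfl⟩
  have hg1 : ∀ n, ‖g n‖ ≤ 1 := by
    intro n
    rw [hg]
    show ‖(if n.val ∈ D then Pool.Agent.Helper7.SC.e (y n.val) else 0 : ℂ)‖ ≤ 1
    by_cases h : n.val ∈ D
    · rw [if_pos h, norm_e7]
    · rw [if_neg h, norm_zero]
      exact zero_le_one
  have hform : (∑ n : ZMod (b ^ K), ∑ t : ZMod (b ^ K),
      (law b q r ((K - r) / q) K p t : ℂ) * (g n * (starRingEnd ℂ) (g (n + t)))).re =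
      GG b q r K p D y := by
    rw [hg]
    exact form_eq b q r ((K - r) / q) K hb p D hD y
  constructor
  · have h0 := hT b q r ((K - r) / q) K p hb hp0 hp1 g (fun _ => 0) (fun _ => by simp)
    rw [hform] at h0
    have h1 : (0 : ℝ) ≤ (b : ℝ) ^ K * GG b q r K p D y := (sq_nonneg _).trans h0
    have h2 : (0 : ℝ) < (b : ℝ) ^ K := by
      have : (0 : ℝ) < b := by
        have : 0 < b := by omega
        exact_mod_cast this
      positivity
    exact (mul_nonneg_iff_of_pos_left h2).1 h1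
  · have h1 := corr_le hT hB hL b q r ((K - r) / q) K hb hrm p hp0 hp1 M hM g hg1
      (fun n => J n.val) c hc
    rw [hform] at h1
    have h2 : ∑ n : ZMod (b ^ K), g n * c (J n.val) =
        ∑ n ∈ D, Pool.Agent.Helper7.SC.e (y n) * c (J n) := by
      have h3 : ∀ n : ZMod (b ^ K), g n * c (J n.val) =
          if n.val ∈ D then Pool.Agent.Helper7.SC.e (y n.val) * c (J n.val) else 0 := by
        intro n
        rw [hg]
        show (if n.val ∈ D then Pool.Agent.Helper7.SC.e (y n.val) else 0) * c (J n.val) = _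
        by_cases h : n.val ∈ D
        · rw [if_pos h, if_pos h]
        · rw [if_neg h, if_neg h, zero_mul]
      rw [Finset.sum_congr rfl fun n _ => h3 n]
      refine (sum_zmod_ite D hD _).trans (Finset.sum_congr rfl fun n hn => ?_)
      rw [ZMod.val_cast_of_lt (mem_range.1 (hD hn))]
    rw [h2] at h1
    refine h1.trans (le_of_eq ?_)
    have h4 : ∑ j ∈ range K, (#{n : ZMod (b ^ K) | J n.val ≠ J (n + (b : ZMod (b ^ K)) ^ j).val} : ℝ)
        = Sn b K J := by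
      unfold Sn
      refine Finset.sum_congr rfl fun j _ => ?_
      rw [card_chg b j J]
    rw [← h4]

/-- the hits, summed over the digits -/
lemma hits_all (b : ℕ) (hb : 2 ≤ b) (ε : ℝ) (hε : 0 < ε) (H : ℕ) (c : ℕ → ℤ → ℂ)
    (hc0 : ∀ d, (c d 0).re ≤ 1 / b + ε / 4)
    (hmaj : ∀ d, ∀ y : ℝ, (if Nat.floor ((b : ℝ) * Int.fract y) = d then (1 : ℝ) else 0) ≤
        (∑ k ∈ Icc (-(H : ℤ)) H, c d k * Pool.Agent.Helper7.SC.e (k * y)).re)
    (q K : ℕ) (hqK : 4 * q ≤ ε * K) (D : Finset ℕ) (f : ℕ → ℕ) (J : ℕ → ℕ → ℕ)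
    (hhits : (1 / b + ε) * K * #D ≤ ∑ n ∈ D, (#{i ∈ range K | dig b i (f n) = J i n} : ℝ)) :
    ε / 2 * K * #D ≤ ∑ i ∈ (range K).filter (fun i => q ≤ i + 1), ∑ k ∈ Kz H,
      ‖∑ n ∈ D, Pool.Agent.Helper7.SC.e (k * ((f n : ℝ) / (b : ℝ) ^ (i + 1))) *
        c (J i n) k‖ := by
  have hb0 : (0 : ℝ) < b := by
    have : 0 < b := by omega
    exact_mod_cast this
  have h1 : ∑ n ∈ D, (#{i ∈ range K | dig b i (f n) = J i n} : ℝ) =
      ∑ i ∈ range K, ∑ n ∈ D, (if dig b i (f n) = J i n then (1 : ℝ) else 0) := by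
    rw [Finset.sum_comm]
    refine Finset.sum_congr rfl fun n _ => ?_
    rw [Finset.card_filter]
    push_cast
    rfl
  rw [h1, ← Finset.sum_filter_add_sum_filter_not (range K) (fun i => q ≤ i + 1)] at hhits
  have h2 : ∑ i ∈ (range K).filter (fun i => ¬ q ≤ i + 1),
      ∑ n ∈ D, (if dig b i (f n) = J i n then (1 : ℝ) else 0) ≤ q * #D := by
    have h3 : ∀ i ∈ (range K).filter (fun i => ¬ q ≤ i + 1),
        ∑ n ∈ D, (if dig b i (f n) = J i n then (1 : ℝ) else 0) ≤ #D := by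
      intro i _
      calc ∑ n ∈ D, (if dig b i (f n) = J i n then (1 : ℝ) else 0) ≤ ∑ _n ∈ D, (1 : ℝ) :=
            Finset.sum_le_sum fun n _ => by split_ifs <;> norm_num
        _ = #D := by simp
    refine (Finset.sum_le_sum h3).trans ?_
    rw [Finset.sum_const, nsmul_eq_mul]
    refine mul_le_mul_of_nonneg_right ?_ (Nat.cast_nonneg _)
    have h4 : #((range K).filter (fun i => ¬ q ≤ i + 1)) ≤ #(range q) := by
      refine Finset.card_le_card fun i hi => ?_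
      have := (mem_filter.1 hi).2
      rw [mem_range]
      omega
    rw [card_range] at h4
    exact_mod_cast h4
  have h5 : ∑ i ∈ (range K).filter (fun i => q ≤ i + 1),
      ∑ n ∈ D, (if dig b i (f n) = J i n then (1 : ℝ) else 0) ≤ K * ((1 / b + ε / 4) * #D) +
      ∑ i ∈ (range K).filter (fun i => q ≤ i + 1), ∑ k ∈ Kz H,
      ‖∑ n ∈ D, Pool.Agent.Helper7.SC.e (k * ((f n : ℝ) / (b : ℝ) ^ (i + 1))) *
        c (J i n) k‖ := by
    refine (Finset.sum_le_sum fun i _ =>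
      hits_one b hb (ε / 4) H c hc0 hmaj D f (J i) i).trans ?_
    rw [Finset.sum_add_distrib, Finset.sum_const, nsmul_eq_mul]
    refine add_le_add ?_ le_rfl
    refine mul_le_mul_of_nonneg_right ?_ (by positivity)
    have h6 : #((range K).filter (fun i => q ≤ i + 1)) ≤ #(range K) :=
      Finset.card_filter_le _ _
    rw [card_range] at h6
    exact_mod_cast h6
  have h7 : (q : ℝ) * #D ≤ ε / 4 * K * #D := by
    refine mul_le_mul_of_nonneg_right ?_ (Nat.cast_nonneg _)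
    linarith
  nlinarith

/-- the sum over the frequencies is the kernel `ka` -/
lemma sum_GG (b q r K : ℕ) (p : ℝ) (H : ℕ) (hH : 1 ≤ H) (D : Finset ℕ) (f : ℕ → ℕ) (j : ℕ) :
    ∑ k ∈ Kz H, GG b q r K p D (fun n => k * ((f n : ℝ) / (b : ℝ) ^ j)) =
      2 * H * ∑ n ∈ D, ∑ n' ∈ D, law b q r ((K - r) / q) K p ((n' : ZMod (b ^ K)) - n) *
        ka H (((f n : ℝ) - f n') / (b : ℝ) ^ j) := by
  have hH0 : (H : ℝ) ≠ 0 := by
    have : H ≠ 0 := by omega
    exact_mod_cast this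
  unfold GG
  rw [Finset.sum_comm, Finset.mul_sum]
  refine Finset.sum_congr rfl fun n _ => ?_
  rw [Finset.sum_comm, Finset.mul_sum]
  refine Finset.sum_congr rfl fun n' _ => ?_
  rw [← Finset.mul_sum]
  have h1 : ∑ k ∈ Kz H, Real.cos (2 * Real.pi * ((k : ℝ) * ((f n : ℝ) / (b : ℝ) ^ j) -
      k * ((f n' : ℝ) / (b : ℝ) ^ j))) = 2 * H * ka H (((f n : ℝ) - f n') / (b : ℝ) ^ j) := by
    unfold Pool.Agent.Helper7.SC.ka
    have h2 : ∀ k ∈ Kz H, Real.cos (2 * Real.pi * ((k : ℝ) * ((f n : ℝ) / (b : ℝ) ^ j) -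
        k * ((f n' : ℝ) / (b : ℝ) ^ j))) =
        Real.cos (2 * Real.pi * (k * (((f n : ℝ) - f n') / (b : ℝ) ^ j))) := by
      intro k _
      congr 2
      ring
    rw [Finset.sum_congr rfl h2, ← mul_assoc,
      mul_one_div_cancel (mul_ne_zero two_ne_zero hH0), one_mul]
  rw [h1]
  ring

end Pool.Agent.Helper43.SC
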