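import Pool.Agent.Helper43.SC.Br1

/-! Bridge, second part: from residues modulo `b ^ K` to the set `D`. -/

set_option autoImplicit false

namespace Pool.Agent.Helper43.SC

open Finset
open Pool.Agent.Helper7.SC (law ka Kz StT StB StL)
open Pool.Agent.Helper57.LJ (dig)

lemma sum_zmod {x : ℕ} [NeZero x] [Fintype (ZMod x)] {M : Type*} [AddCommMonoid M]
    (φ : ZMod x → M) : ∑ n, φ n = ∑ n ∈ range x, φ (n : ZMod x) := by
  refine Finset.sum_nbij' (fun n => ZMod.val n) (fun n => (n : ZMod x)) ?_ ?_ ?_ ?_ ?_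
  · intro n _
    exact mem_range.2 (ZMod.val_lt n)
  · intro n _
    exact mem_univ _
  · intro n _
    exact ZMod.natCast_zmod_val n
  · intro n hn
    exact ZMod.val_cast_of_lt (mem_range.1 hn)
  · intro n _
    show φ n = φ ((ZMod.val n : ℕ) : ZMod x)
    rw [ZMod.natCast_zmod_val]

lemma sum_zmod_ite {x : ℕ} [NeZero x] [Fintype (ZMod x)] {M : Type*} [AddCommMonoid M]
    (D : Finset ℕ) (hD : D ⊆ range x) (φ : ZMod x → M) :
    ∑ n : ZMod x, (if n.val ∈ D then φ n else 0) = ∑ n ∈ D, φ (n : ZMod x) := by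
  rw [sum_zmod]
  have h1 : ∀ n ∈ range x, (if (n : ZMod x).val ∈ D then φ (n : ZMod x) else 0) =
      if n ∈ D then φ (n : ZMod x) else 0 := by
    intro n hn
    rw [ZMod.val_cast_of_lt (mem_range.1 hn)]
  rw [Finset.sum_congr rfl h1, Finset.sum_ite_mem, Finset.inter_eq_right.2 hD]

lemma card_chg {x : ℕ} [NeZero x] [Fintype (ZMod x)] (b j : ℕ) (J : ℕ → ℕ) :
    #{n : ZMod x | J n.val ≠ J (n + (b : ZMod x) ^ j).val} =
      #{n ∈ range x | J n ≠ J ((n + b ^ j) % x)} := by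
  have h0 : ∀ n : ZMod x, (n + (b : ZMod x) ^ j).val = (n.val + b ^ j) % x := by
    intro n
    rw [ZMod.val_add, ← Nat.cast_pow, ZMod.val_natCast, Nat.add_mod_mod]
  refine Finset.card_nbij' (fun n => ZMod.val n) (fun n => (n : ZMod x)) ?_ ?_ ?_ ?_
  · intro n hn
    have hn' := (mem_filter.1 hn).2
    rw [h0] at hn'
    exact mem_filter.2 ⟨mem_range.2 (ZMod.val_lt n), hn'⟩
  · intro n hn
    obtain ⟨h1, h2⟩ := mem_filter.1 hn
    refine mem_filter.2 ⟨mem_univ _, ?_⟩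
    rw [h0, ZMod.val_cast_of_lt (mem_range.1 h1)]
    exact h2
  · intro n _
    exact ZMod.natCast_zmod_val n
  · intro n hn
    exact ZMod.val_cast_of_lt (mem_range.1 (mem_filter.1 hn).1)

lemma e_conj_mul (s t : ℝ) : (Pool.Agent.Helper7.SC.e s * (starRingEnd ℂ)
    (Pool.Agent.Helper7.SC.e t)).re = Real.cos (2 * Real.pi * (s - t)) := by
  have h1 : ∀ u : ℝ, Pool.Agent.Helper7.SC.e u =
      Complex.exp (((2 * Real.pi * u : ℝ) : ℂ) * Complex.I) := by
    intro u
    unfold Pool.Agent.Helper7.SC.e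
    push_cast
    rfl
  rw [h1, h1, ← Complex.exp_conj, map_mul, Complex.conj_I, Complex.conj_ofReal, ← Complex.exp_add]
  have h2 : ((2 * Real.pi * s : ℝ) : ℂ) * Complex.I + ((2 * Real.pi * t : ℝ) : ℂ) * -Complex.I =
      ((2 * Real.pi * (s - t) : ℝ) : ℂ) * Complex.I := by
    push_cast
    ring
  rw [h2, Complex.exp_ofReal_mul_I_re]

lemma norm_e7 (t : ℝ) : ‖Pool.Agent.Helper7.SC.e t‖ = 1 := by
  have h1 : Pool.Agent.Helper7.SC.e t =
      Complex.exp (((2 * Real.pi * t : ℝ) : ℂ) * Complex.I) := by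
    unfold Pool.Agent.Helper7.SC.e
    push_cast
    rfl
  rw [h1, Complex.norm_exp_ofReal_mul_I]

/-- the quadratic form in terms of `D` -/
lemma form_eq (b q r m K : ℕ) (hb : 2 ≤ b) (p : ℝ) [Fintype (ZMod (b ^ K))] (D : Finset ℕ)
    (hD : D ⊆ range (b ^ K)) (y : ℕ → ℝ) :
    (∑ n : ZMod (b ^ K), ∑ t : ZMod (b ^ K), (law b q r m K p t : ℂ) *
      ((if n.val ∈ D then Pool.Agent.Helper7.SC.e (y n.val) else 0) * (starRingEnd ℂ)
        (if (n + t).val ∈ D then Pool.Agent.Helper7.SC.e (y (n + t).val) else 0))).re =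
      ∑ n ∈ D, ∑ n' ∈ D, law b q r m K p ((n' : ZMod (b ^ K)) - n) *
        Real.cos (2 * Real.pi * (y n - y n')) := by
  have hx : 0 < b ^ K := Nat.pow_pos (by omega)
  have : NeZero (b ^ K) := ⟨hx.ne'⟩
  have h1 : ∀ n : ZMod (b ^ K), ∑ t : ZMod (b ^ K), (law b q r m K p t : ℂ) *
      ((if n.val ∈ D then Pool.Agent.Helper7.SC.e (y n.val) else 0) * (starRingEnd ℂ)
        (if (n + t).val ∈ D then Pool.Agent.Helper7.SC.e (y (n + t).val) else 0)) =
      if n.val ∈ D then ∑ n' ∈ D, (law b q r m K p ((n' : ZMod (b ^ K)) - n) : ℂ) *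
        (Pool.Agent.Helper7.SC.e (y n.val) * (starRingEnd ℂ) (Pool.Agent.Helper7.SC.e (y n')))
      else 0 := by
    intro n
    have h2 : ∑ t : ZMod (b ^ K), (law b q r m K p t : ℂ) *
        ((if n.val ∈ D then Pool.Agent.Helper7.SC.e (y n.val) else 0) * (starRingEnd ℂ)
          (if (n + t).val ∈ D then Pool.Agent.Helper7.SC.e (y (n + t).val) else 0)) =
        ∑ n' : ZMod (b ^ K), (law b q r m K p (n' - n) : ℂ) *
        ((if n.val ∈ D then Pool.Agent.Helper7.SC.e (y n.val) else 0) * (starRingEnd ℂ)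
          (if n'.val ∈ D then Pool.Agent.Helper7.SC.e (y n'.val) else 0)) := by
      refine Fintype.sum_equiv (Equiv.addLeft n) _ _ fun t => ?_
      rw [Equiv.coe_addLeft, add_sub_cancel_left]
    rw [h2]
    by_cases hn : n.val ∈ D
    · simp only [if_pos hn]
      have h3 : ∀ n' : ZMod (b ^ K), (law b q r m K p (n' - n) : ℂ) *
          (Pool.Agent.Helper7.SC.e (y n.val) * (starRingEnd ℂ)
            (if n'.val ∈ D then Pool.Agent.Helper7.SC.e (y n'.val) else 0)) =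
          if n'.val ∈ D then (law b q r m K p (n' - n) : ℂ) *
            (Pool.Agent.Helper7.SC.e (y n.val) *
              (starRingEnd ℂ) (Pool.Agent.Helper7.SC.e (y n'.val))) else 0 := by
        intro n'
        by_cases hn' : n'.val ∈ D
        · rw [if_pos hn', if_pos hn']
        · rw [if_neg hn', if_neg hn', map_zero, mul_zero, mul_zero]
      rw [Finset.sum_congr rfl fun n' _ => h3 n']
      refine (sum_zmod_ite D hD _).trans (Finset.sum_congr rfl fun n' hn' => ?_)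
      rw [ZMod.val_cast_of_lt (mem_range.1 (hD hn'))]
    · simp only [if_neg hn, zero_mul, mul_zero, Finset.sum_const_zero]
  rw [Finset.sum_congr rfl fun n _ => h1 n]
  rw [sum_zmod_ite D hD (fun n => ∑ n' ∈ D, (law b q r m K p ((n' : ZMod (b ^ K)) - n) : ℂ) *
        (Pool.Agent.Helper7.SC.e (y n.val) * (starRingEnd ℂ) (Pool.Agent.Helper7.SC.e (y n'))))]
  rw [Complex.re_sum]
  refine Finset.sum_congr rfl fun n hn => ?_
  rw [Complex.re_sum]
  refine Finset.sum_congr rfl fun n' _ => ?_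
  rw [ZMod.val_cast_of_lt (mem_range.1 (hD hn)), Complex.re_ofReal_mul, e_conj_mul]

/-- blocks and classes -/
lemma sum_blocks {M : Type*} [AddCommMonoid M] (q K : ℕ) (hq : 1 ≤ q) (Φ : ℕ → ℕ → M) :
    ∑ i ∈ (range K).filter (fun i => q ≤ i + 1), Φ ((i + 1) % q) (i + 1) =
      ∑ r ∈ range q, ∑ B ∈ range ((K - r) / q), Φ r (r + (B + 1) * q) := by
  rw [Finset.sum_sigma']
  have hdiv : ∀ r B : ℕ, r < q → (B < (K - r) / q ↔ r + (B + 1) * q ≤ K) := by
    intro r B hr
    rw [Nat.lt_iff_add_one_le, Nat.le_div_iff_mul_le (by omega)]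
    constructor
    · intro h
      have h1 : 0 < (B + 1) * q := Nat.mul_pos (by omega) (by omega)
      omega
    · intro h
      omega
  refine Finset.sum_nbij' (fun i => (⟨(i + 1) % q, (i + 1) / q - 1⟩ : Σ _ : ℕ, ℕ))
    (fun s => s.1 + (s.2 + 1) * q - 1) ?_ ?_ ?_ ?_ ?_
  · intro i hi
    obtain ⟨h1, h2⟩ := mem_filter.1 hi
    have h1' := mem_range.1 h1
    have h3 : (i + 1) % q < q := Nat.mod_lt _ (by omega)
    have h4 : 1 ≤ (i + 1) / q := (Nat.one_le_div_iff (by omega)).2 h2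
    have h5 : (i + 1) % q + (i + 1) / q * q = i + 1 := by
      rw [Nat.mul_comm]
      exact Nat.mod_add_div _ _
    refine mem_sigma.2 ⟨mem_range.2 h3, mem_range.2 ((hdiv _ _ h3).2 ?_)⟩
    show (i + 1) % q + ((i + 1) / q - 1 + 1) * q ≤ K
    rw [Nat.sub_add_cancel h4, h5]
    omega
  · rintro ⟨r, B⟩ hs
    obtain ⟨h1, h2⟩ := mem_sigma.1 hs
    have h1' : r < q := mem_range.1 h1
    have h2' := (hdiv r B h1').1 (mem_range.1 h2)
    have h3 : q ≤ (B + 1) * q := Nat.le_mul_of_pos_left q (by omega)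
    refine mem_filter.2 ⟨mem_range.2 ?_, ?_⟩
    · show r + (B + 1) * q - 1 < K
      omega
    · show q ≤ r + (B + 1) * q - 1 + 1
      omega
  · intro i hi
    obtain ⟨h1, h2⟩ := mem_filter.1 hi
    have h4 : 1 ≤ (i + 1) / q := (Nat.one_le_div_iff (by omega)).2 h2
    have h5 : (i + 1) % q + (i + 1) / q * q = i + 1 := by
      rw [Nat.mul_comm]
      exact Nat.mod_add_div _ _
    show (i + 1) % q + ((i + 1) / q - 1 + 1) * q - 1 = i
    rw [Nat.sub_add_cancel h4, h5]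
    omega
  · rintro ⟨r, B⟩ hs
    obtain ⟨h1, h2⟩ := mem_sigma.1 hs
    have h1' : r < q := mem_range.1 h1
    have h3 : q ≤ (B + 1) * q := Nat.le_mul_of_pos_left q (by omega)
    have h6 : r + (B + 1) * q - 1 + 1 = r + (B + 1) * q := by omega
    have h7 : (r + (B + 1) * q) % q = r := by
      rw [Nat.add_mul_mod_self_right, Nat.mod_eq_of_lt h1']
    have h8 : (r + (B + 1) * q) / q = B + 1 := by
      rw [Nat.add_mul_div_right _ _ (by omega), Nat.div_eq_of_lt h1', Nat.zero_add]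
    show (⟨(r + (B + 1) * q - 1 + 1) % q, (r + (B + 1) * q - 1 + 1) / q - 1⟩ : Σ _ : ℕ, ℕ) =
      ⟨r, B⟩
    rw [h6, h7, h8, Nat.add_sub_cancel]
  · intro i hi
    obtain ⟨h1, h2⟩ := mem_filter.1 hi
    have h4 : 1 ≤ (i + 1) / q := (Nat.one_le_div_iff (by omega)).2 h2
    have h5 : (i + 1) % q + (i + 1) / q * q = i + 1 := by
      rw [Nat.mul_comm]
      exact Nat.mod_add_div _ _
    show Φ ((i + 1) % q) (i + 1) = Φ ((i + 1) % q) ((i + 1) % q + ((i + 1) / q - 1 + 1) * q)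
    rw [Nat.sub_add_cancel h4, h5]

end Pool.Agent.Helper43.SC
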