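import Pool.Agent.Helper43.SC.Br2

/-! Bridge, third part: the count of hits and the constants. -/

set_option autoImplicit false

namespace Pool.Agent.Helper43.SC

open Finset
open Pool.Agent.Helper7.SC (law ka Kz StT StB StL)
open Pool.Agent.Helper57.LJ (dig)

lemma sum_Icc_split (H : ℕ) (F : ℤ → ℂ) :
    ∑ k ∈ Icc (-(H : ℤ)) H, F k = F 0 + ∑ k ∈ Kz H, F k := by
  unfold Pool.Agent.Helper7.SC.Kz
  rw [Finset.add_sum_erase]
  rw [Finset.mem_Icc]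
  omega

lemma card_Kz (H : ℕ) : #(Kz H) = 2 * H := by
  unfold Pool.Agent.Helper7.SC.Kz
  rw [Finset.card_erase_of_mem (by rw [Finset.mem_Icc]; omega), Int.card_Icc]
  omega

/-- the hits at one digit -/
lemma hits_one (b : ℕ) (hb : 2 ≤ b) (ε : ℝ) (H : ℕ) (c : ℕ → ℤ → ℂ)
    (hc0 : ∀ d, (c d 0).re ≤ 1 / b + ε)
    (hmaj : ∀ d, ∀ y : ℝ, (if Nat.floor ((b : ℝ) * Int.fract y) = d then (1 : ℝ) else 0) ≤
        (∑ k ∈ Icc (-(H : ℤ)) H, c d k * Pool.Agent.Helper7.SC.e (k * y)).re)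
    (D : Finset ℕ) (f : ℕ → ℕ) (J : ℕ → ℕ) (i : ℕ) :
    ∑ n ∈ D, (if dig b i (f n) = J n then (1 : ℝ) else 0) ≤ (1 / b + ε) * #D +
      ∑ k ∈ Kz H, ‖∑ n ∈ D, Pool.Agent.Helper7.SC.e (k * ((f n : ℝ) / (b : ℝ) ^ (i + 1))) *
        c (J n) k‖ := by
  have h1 : ∀ n ∈ D, (if dig b i (f n) = J n then (1 : ℝ) else 0) ≤ (1 / b + ε) +
      (∑ k ∈ Kz H, Pool.Agent.Helper7.SC.e (k * ((f n : ℝ) / (b : ℝ) ^ (i + 1))) *
        c (J n) k).re := by
    intro n _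
    have h2 := hmaj (J n) ((f n : ℝ) / (b : ℝ) ^ (i + 1))
    rw [Pool.Agent.Helper43.LJ.floor_fract_dig b hb, sum_Icc_split, Complex.add_re] at h2
    have h3 : (c (J n) 0 * Pool.Agent.Helper7.SC.e (((0 : ℤ) : ℝ) *
        ((f n : ℝ) / (b : ℝ) ^ (i + 1)))).re = (c (J n) 0).re := by
      have : Pool.Agent.Helper7.SC.e (((0 : ℤ) : ℝ) * ((f n : ℝ) / (b : ℝ) ^ (i + 1))) = 1 := by
        unfold Pool.Agent.Helper7.SC.e
        simp
      rw [this, mul_one]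
    rw [h3] at h2
    have h4 : ∑ k ∈ Kz H, c (J n) k * Pool.Agent.Helper7.SC.e (k * ((f n : ℝ) / (b : ℝ) ^ (i + 1))) =
        ∑ k ∈ Kz H, Pool.Agent.Helper7.SC.e (k * ((f n : ℝ) / (b : ℝ) ^ (i + 1))) * c (J n) k :=
      Finset.sum_congr rfl fun k _ => mul_comm _ _
    rw [h4] at h2
    have h5 := hc0 (J n)
    linarith
  refine (Finset.sum_le_sum h1).trans ?_
  rw [Finset.sum_add_distrib, Finset.sum_const, nsmul_eq_mul, mul_comm (#D : ℝ)]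
  refine add_le_add le_rfl ?_
  rw [← Complex.re_sum, Finset.sum_comm]
  refine (Complex.re_le_norm _).trans (norm_sum_le _ _)

lemma sqrt_le_lin (x G lam : ℝ) (hx : 0 ≤ x) (hG : 0 ≤ G) (hl : 0 < lam) :
    Real.sqrt (x * G) ≤ lam * x / 2 + G / (2 * lam) := by
  have h0 : 0 ≤ lam * x / 2 + G / (2 * lam) := by positivity
  rw [Real.sqrt_le_left h0]
  have h1 : x * G = 4 * (lam * x / 2) * (G / (2 * lam)) := by
    field_simp
    ring
  rw [h1]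
  nlinarith [sq_nonneg (lam * x / 2 - G / (2 * lam))]

end Pool.Agent.Helper43.SC
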