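import Pool.Agent.Helper43.SC.Br4

/-! Bridge, last part: the constants. -/

set_option autoImplicit false

namespace Pool.Agent.Helper43.SC

open Finset
open Pool.Agent.Helper7.SC (law ka Kz StT StB StL)
open Pool.Agent.Helper57.LJ (dig)

/-- the sum over the digits of the upper bounds -/
lemma upper (b q K H : ℕ) (M lam p x s : ℝ) (hb : 2 ≤ b) (hM : 0 < M) (hlam : 0 < lam)
    (hp : 0 ≤ p) (hx : 0 ≤ x)
    (A G : ℕ → ℤ → ℝ) (S : ℕ → ℝ) (hS : ∀ i, 0 ≤ S i) (hG : ∀ i ∈ (range K).filter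
      (fun i => q ≤ i + 1), ∀ k ∈ Kz H, 0 ≤ G i k ∧
      A i k ≤ M * (Real.sqrt (x * G i k) + 4 * (b - 1) * p * S i))
    (hsens : ∑ i ∈ range K, S i ≤ s * K * x) :
    ∑ i ∈ (range K).filter (fun i => q ≤ i + 1), ∑ k ∈ Kz H, A i k ≤
      M * H * lam * (K * x) + M / (2 * lam) *
        ∑ i ∈ (range K).filter (fun i => q ≤ i + 1), ∑ k ∈ Kz H, G i k +
      8 * M * H * (b - 1) * (p * s) * (K * x) := by
  have hb1 : (0 : ℝ) ≤ b - 1 := by
    have : (2 : ℝ) ≤ b := by exact_mod_cast hb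
    linarith
  have h1 : ∀ i ∈ (range K).filter (fun i => q ≤ i + 1), ∑ k ∈ Kz H, A i k ≤
      M * H * lam * x + M / (2 * lam) * ∑ k ∈ Kz H, G i k + 8 * M * H * (b - 1) * p * S i := by
    intro i hi
    have h2 : ∀ k ∈ Kz H, A i k ≤ M * (lam * x / 2) + M / (2 * lam) * G i k +
        M * (4 * (b - 1) * p * S i) := by
      intro k hk
      obtain ⟨h3, h4⟩ := hG i hi k hk
      have h5 := sqrt_le_lin x (G i k) lam hx h3 hlam
      have h6 := mul_le_mul_of_nonneg_left h5 hM.le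
      have h7 : M * (lam * x / 2 + G i k / (2 * lam)) =
          M * (lam * x / 2) + M / (2 * lam) * G i k := by
        field_simp
      rw [h7] at h6
      rw [mul_add] at h4
      linarith
    refine (Finset.sum_le_sum h2).trans (le_of_eq ?_)
    rw [Finset.sum_add_distrib, Finset.sum_add_distrib, Finset.sum_const, Finset.sum_const,
      card_Kz, ← Finset.mul_sum, nsmul_eq_mul, nsmul_eq_mul]
    push_cast
    ring
  refine (Finset.sum_le_sum h1).trans ?_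
  rw [Finset.sum_add_distrib, Finset.sum_add_distrib, Finset.sum_const, ← Finset.mul_sum,
    ← Finset.mul_sum, nsmul_eq_mul]
  have h8 : (#((range K).filter (fun i => q ≤ i + 1)) : ℝ) ≤ K := by
    have h6 : #((range K).filter (fun i => q ≤ i + 1)) ≤ #(range K) :=
      Finset.card_filter_le _ _
    rw [card_range] at h6
    exact_mod_cast h6
  have h9 : ∑ i ∈ (range K).filter (fun i => q ≤ i + 1), S i ≤ s * K * x :=
    (Finset.sum_le_sum_of_subset_of_nonneg (Finset.filter_subset _ _)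
      fun i _ _ => hS i).trans hsens
  have h10 : (#((range K).filter (fun i => q ≤ i + 1)) : ℝ) * (M * H * lam * x) ≤
      K * (M * H * lam * x) := mul_le_mul_of_nonneg_right h8 (by positivity)
  have h11 : 8 * M * H * (b - 1) * p * ∑ i ∈ (range K).filter (fun i => q ≤ i + 1), S i ≤
      8 * M * H * (b - 1) * p * (s * K * x) := by
    refine mul_le_mul_of_nonneg_left h9 ?_
    have : 0 ≤ 8 * M * H := by positivity
    exact mul_nonneg (mul_nonneg this hb1) hp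
  have h12 : (K : ℝ) * (M * H * lam * x) = M * H * lam * (K * x) := by ring
  have h13 : 8 * M * H * ((b : ℝ) - 1) * p * (s * K * x) =
      8 * M * H * (b - 1) * (p * s) * (K * x) := by ring
  rw [h12] at h10
  rw [h13] at h11
  linarith

/-- (C) the bridge -/
theorem stC (hT : StT) (hB : StB) (hL : StL) : StC := by
  intro b hb ε δ hε hδ
  obtain ⟨H, M, c, hH, hM, hc, hc0, hmaj⟩ := maj_bdd b hb (ε / 4) (by positivity)
  have hbR : (2 : ℝ) ≤ b := by exact_mod_cast hb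
  have hb0 : (0 : ℝ) < b := by linarith
  have hHR : (1 : ℝ) ≤ H := by exact_mod_cast hH
  have hH0 : (0 : ℝ) < H := by linarith
  have hM0 : 0 < M := by linarith
  obtain ⟨a, ha⟩ : ∃ a : ℝ, a = ε * δ := ⟨_, rfl⟩
  have ha0 : 0 < a := by rw [ha]; positivity
  obtain ⟨c₁, hc₁⟩ : ∃ c₁ : ℝ, c₁ = min (1 / 2) (a / (64 * M * H * b)) := ⟨_, rfl⟩
  have hc₁0 : 0 < c₁ := by
    rw [hc₁]
    exact lt_min (by norm_num) (by positivity)
  have hc₁1 : c₁ ≤ 1 / 2 := by
    rw [hc₁]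
    exact min_le_left _ _
  have hc₁2 : c₁ ≤ a / (64 * M * H * b) := by
    rw [hc₁]
    exact min_le_right _ _
  refine ⟨H, a ^ 2 / (32 * M ^ 2 * H ^ 2), c₁, hH, by positivity, hc₁0, hc₁1, ?_⟩
  intro q K hq hqK s hs D f J hD hDc hsens hhits
  have hs0 : 0 < s := by linarith
  obtain ⟨p, hp⟩ : ∃ p : ℝ, p = c₁ / s := ⟨_, rfl⟩
  rw [← hp]
  have hp0 : 0 ≤ p := by rw [hp]; positivity
  have hp1 : p ≤ 1 := by
    rw [hp, div_le_one hs0]
    linarith
  have hps : p * s = c₁ := by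
    rw [hp]
    field_simp
  obtain ⟨x, hx⟩ : ∃ x : ℝ, x = (b : ℝ) ^ K := ⟨_, rfl⟩
  have hx0 : 0 < x := by rw [hx]; positivity
  -- lower bound
  have hlow := hits_all b hb ε hε H c hc0 hmaj q K hqK D f J hhits
  -- upper bound
  have hup := upper b q K H M (a / (8 * M * H)) p x s hb hM0 (by positivity) hp0 hx0.le
    (fun i k => ‖∑ n ∈ D, Pool.Agent.Helper7.SC.e (k * ((f n : ℝ) / (b : ℝ) ^ (i + 1))) *
        c (J i n) k‖)
    (fun i k => GG b q ((i + 1) % q) K p D (fun n => k * ((f n : ℝ) / (b : ℝ) ^ (i + 1))))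
    (fun i => Sn b K (J i)) (fun i => Finset.sum_nonneg fun j _ => Nat.cast_nonneg _)
    (fun i hi k _ => by
      obtain ⟨h1, h2⟩ := mem_filter.1 hi
      have h1' := mem_range.1 h1
      have hr : (i + 1) % q ≤ K := (Nat.mod_lt _ (by omega)).le.trans (by omega)
      have h3 := corr_D hT hB hL b q ((i + 1) % q) K hb hr p hp0 hp1 M hM0 D hD
        (fun n => k * ((f n : ℝ) / (b : ℝ) ^ (i + 1))) (J i) (fun d => c d k) (fun d => hc d k)
      rw [hx]
      exact h3)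
    (by rw [hx]; exact hsens)
  -- the sum of the forms
  obtain ⟨W, hW⟩ : ∃ W : ℕ → ℝ, W = fun r => ∑ n ∈ D, ∑ n' ∈ D,
      law b q r ((K - r) / q) K p ((n' : ZMod (b ^ K)) - n) *
        ∑ B : Fin ((K - r) / q), ka H (((f n : ℝ) - f n') / (b : ℝ) ^ (r + (B + 1) * q)) :=
    ⟨_, rfl⟩
  have hsum : ∑ i ∈ (range K).filter (fun i => q ≤ i + 1), ∑ k ∈ Kz H,
      GG b q ((i + 1) % q) K p D (fun n => k * ((f n : ℝ) / (b : ℝ) ^ (i + 1))) =
      2 * H * ∑ r ∈ range q, W r := by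
    obtain ⟨Φ, hΦ⟩ : ∃ Φ : ℕ → ℕ → ℝ, ∀ r j, Φ r j = 2 * (H : ℝ) * ∑ n ∈ D, ∑ n' ∈ D,
          law b q r ((K - r) / q) K p ((n' : ZMod (b ^ K)) - n) *
            ka H (((f n : ℝ) - f n') / (b : ℝ) ^ j) := ⟨_, fun r j => rfl⟩
    have h1 : ∀ i ∈ (range K).filter (fun i => q ≤ i + 1), ∑ k ∈ Kz H,
        GG b q ((i + 1) % q) K p D (fun n => k * ((f n : ℝ) / (b : ℝ) ^ (i + 1))) =
        Φ ((i + 1) % q) (i + 1) := by
      intro i _
      rw [hΦ]
      exact sum_GG b q ((i + 1) % q) K p H hH D f (i + 1)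
    rw [Finset.sum_congr rfl h1, sum_blocks q K hq Φ, Finset.mul_sum]
    refine Finset.sum_congr rfl fun r _ => ?_
    simp only [hΦ]
    rw [← Finset.mul_sum, hW]
    congr 1
    rw [Finset.sum_comm]
    refine Finset.sum_congr rfl fun n _ => ?_
    rw [Finset.sum_comm]
    refine Finset.sum_congr rfl fun n' _ => ?_
    rw [← Finset.mul_sum, ← Fin.sum_univ_eq_sum_range
      (fun B => ka H (((f n : ℝ) - f n') / (b : ℝ) ^ (r + (B + 1) * q)))]
  have hcard : (∑ r ∈ range q, (((K - r) / q : ℕ) : ℝ)) ≤ K := by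
    have h1 := sum_blocks q K hq (fun _ _ => (1 : ℕ))
    simp only [Finset.sum_const, smul_eq_mul, mul_one, card_range] at h1
    have h2 : #((range K).filter (fun i => q ≤ i + 1)) ≤ #(range K) :=
      Finset.card_filter_le _ _
    rw [card_range, h1] at h2
    exact_mod_cast h2
  rw [hsum] at hup
  have hlow2 : a / 2 * (K * x) ≤ ε / 2 * K * #D := by
    have h1 : δ * x ≤ #D := by rw [hx]; exact hDc
    have h2 : a / 2 * (K * x) = ε / 2 * K * (δ * x) := by rw [ha]; ring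
    rw [h2]
    exact mul_le_mul_of_nonneg_left h1 (by positivity)
  have hKx : 0 ≤ (K : ℝ) * x := by positivity
  have e1 : M * H * (a / (8 * M * H)) = a / 8 := by field_simp
  have e2 : M / (2 * (a / (8 * M * H))) * (2 * H * ∑ r ∈ range q, W r) =
      8 * M ^ 2 * H ^ 2 / a * ∑ r ∈ range q, W r := by
    field_simp
  have e3 : 8 * M * H * ((b : ℝ) - 1) * (p * s) ≤ a / 8 := by
    rw [hps]
    have h1 : 8 * M * H * ((b : ℝ) - 1) * c₁ ≤ 8 * M * H * b * (a / (64 * M * H * b)) := by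
      refine mul_le_mul ?_ hc₁2 hc₁0.le (by positivity)
      refine mul_le_mul_of_nonneg_left (by linarith) (by positivity)
    refine h1.trans (le_of_eq ?_)
    field_simp
    norm_num
  rw [e1, e2] at hup
  have e4 : 8 * M * H * ((b : ℝ) - 1) * (p * s) * (K * x) ≤ a / 8 * (K * x) :=
    mul_le_mul_of_nonneg_right e3 hKx
  have hfin : a / 4 * (K * x) ≤ 8 * M ^ 2 * H ^ 2 / a * ∑ r ∈ range q, W r := by
    have h1 := hlow2.trans (hlow.trans hup)
    linarith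
  have hfin2 : a ^ 2 / (32 * M ^ 2 * H ^ 2) * (K * x) ≤ ∑ r ∈ range q, W r := by
    have h1 := mul_le_mul_of_nonneg_left hfin
      (show 0 ≤ a / (8 * M ^ 2 * H ^ 2) by positivity)
    have h2 : a / (8 * M ^ 2 * H ^ 2) * (a / 4 * (K * x)) =
        a ^ 2 / (32 * M ^ 2 * H ^ 2) * (K * x) := by
      field_simp
      ring
    have h3 : a / (8 * M ^ 2 * H ^ 2) * (8 * M ^ 2 * H ^ 2 / a * ∑ r ∈ range q, W r) =
        ∑ r ∈ range q, W r := by
      field_simp
    rw [h2, h3] at h1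
    exact h1
  have hfin3 : ∑ r ∈ range q, a ^ 2 / (32 * M ^ 2 * H ^ 2) * (((K - r) / q : ℕ) * x) ≤
      ∑ r ∈ range q, W r := by
    rw [← Finset.mul_sum, ← Finset.sum_mul]
    refine le_trans ?_ hfin2
    refine mul_le_mul_of_nonneg_left ?_ (by positivity)
    exact mul_le_mul_of_nonneg_right hcard hx0.le
  obtain ⟨r, hr, hrW⟩ := Finset.exists_le_of_sum_le
    (Finset.nonempty_range_iff.2 (by omega)) hfin3
  refine ⟨r, mem_range.1 hr, ?_⟩
  rw [hW, hx] at hrW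
  exact hrW

/-- the form used in the assembly -/
theorem stC37 (hT : StT) (hB : StB) (hL : StL) : ∀ (b : ℕ), 2 ≤ b → ∀ (eps del : ℝ), 0 < eps →
    0 < del → ∃ (H : ℕ) (eps0 c1 : ℝ), 1 ≤ H ∧ 0 < eps0 ∧ 0 < c1 ∧ c1 ≤ 1 / 2 ∧
    ∀ q : ℕ, 1 ≤ q → ∃ K0 : ℕ, ∀ K ≥ K0, ∀ s : ℝ, 1 ≤ s →
    ∀ (D : Finset ℕ) (f : ℕ → ℕ) (J : ℕ → ℕ → ℕ), D ⊆ range (b ^ K) →
    del * (b : ℝ) ^ K ≤ #D →
    (∑ i ∈ range K, ∑ j ∈ range K,
      (#{n ∈ range (b ^ K) | J i n ≠ J i ((n + b ^ j) % b ^ K)} : ℝ)) ≤ s * K * (b : ℝ) ^ K →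
    (1 / b + eps) * K * #D ≤ ∑ n ∈ D, (#{i ∈ range K | f n / b ^ i % b = J i n} : ℝ) →
    ∃ r m : ℕ, r < q ∧ 0 < m ∧ r + m * q ≤ K ∧ K < r + (m + 1) * q ∧
      eps0 * (m * (b : ℝ) ^ K) ≤ ∑ n ∈ D, ∑ n' ∈ D,
        law b q r m K (c1 / s) ((n' : ZMod (b ^ K)) - n) *
          ∑ B : Fin m, ka H (((f n : ℝ) - f n') / (b : ℝ) ^ (r + (B + 1) * q)) := by
  intro b hb eps del heps hdel
  obtain ⟨H, eps0, c1, h1, h2, h3, h4, h5⟩ := stC hT hB hL b hb eps del heps hdel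
  refine ⟨H, eps0, c1, h1, h2, h3, h4, fun q hq => ?_⟩
  refine ⟨Nat.ceil (4 * q / eps) + 2 * q, fun K hK s hs D f J hD hDc hsens hhits => ?_⟩
  have hqK : 4 * (q : ℝ) ≤ eps * K := by
    have h6 : 4 * (q : ℝ) / eps ≤ K := by
      refine (Nat.le_ceil _).trans ?_
      have : Nat.ceil (4 * (q : ℝ) / eps) ≤ K := by omega
      exact_mod_cast this
    rw [div_le_iff₀ heps] at h6
    linarith
  obtain ⟨r, hr, hrW⟩ := h5 q K hq hqK s hs D f J hD hDc hsens hhits
  have h7 : 2 * q ≤ K := by omega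
  have h8 : (K - r) / q * q ≤ K - r := Nat.div_mul_le_self _ _
  have h9 : K - r < ((K - r) / q + 1) * q := by
    have h10 := Nat.div_add_mod (K - r) q
    have h11 : (K - r) % q < q := Nat.mod_lt _ (by omega)
    have h12 : ((K - r) / q + 1) * q = q * ((K - r) / q) + q := by ring
    omega
  refine ⟨r, (K - r) / q, hr, ?_, ?_, ?_, hrW⟩
  · exact Nat.div_pos (by omega) (by omega)
  · omega
  · omega

end Pool.Agent.Helper43.SC
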