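import Pool.Agent.Helper7.SC.Frames
import Pool.Agent.Helper57.LJ.Defs

/-! Frame of the bridge (statement as a proposition). -/

set_option autoImplicit false

namespace Pool.Agent.Helper43.SC

open Finset
open Pool.Agent.Helper7.SC (law ka)
open Pool.Agent.Helper57.LJ (dig)

/-- (C) bridge -/
def StC : Prop := ∀ (b : ℕ), 2 ≤ b → ∀ (ε δ : ℝ), 0 < ε → 0 < δ →
  ∃ (H : ℕ) (ε₀ c₁ : ℝ), 1 ≤ H ∧ 0 < ε₀ ∧ 0 < c₁ ∧ c₁ ≤ 1 / 2 ∧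
  ∀ (q K : ℕ), 1 ≤ q → 4 * q ≤ ε * K → ∀ s : ℝ, 1 ≤ s →
  ∀ (D : Finset ℕ) (f : ℕ → ℕ) (J : ℕ → ℕ → ℕ), D ⊆ range (b ^ K) → δ * (b : ℝ) ^ K ≤ #D →
  ∑ i ∈ range K, ∑ j ∈ range K,
    (#{n ∈ range (b ^ K) | J i n ≠ J i ((n + b ^ j) % b ^ K)} : ℝ) ≤ s * K * (b : ℝ) ^ K →
  (1 / b + ε) * K * #D ≤ ∑ n ∈ D, (#{i ∈ range K | dig b i (f n) = J i n} : ℝ) →
  ∃ r < q, ε₀ * (((K - r) / q : ℕ) * (b : ℝ) ^ K) ≤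
    ∑ n ∈ D, ∑ n' ∈ D, law b q r ((K - r) / q) K (c₁ / s) ((n' : ZMod (b ^ K)) - n) *
      ∑ B : Fin ((K - r) / q), ka H (((f n : ℝ) - f n') / (b : ℝ) ^ (r + (B + 1) * q))

end Pool.Agent.Helper43.SC
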