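import Mathlib

/-! Stability of a function on a finite abelian group under shifts. -/

set_option autoImplicit false

namespace Pool.Agent.Helper43.SC

open Finset

variable {G : Type*} [AddCommGroup G] [Fintype G] {α : Type*} [DecidableEq α]

/-- the number of `n` at which `g` changes under the shift by `d` -/
def chg (g : G → α) (d : G) : ℕ := #{n | g (n + d) ≠ g n}

lemma chg_zero (g : G → α) : chg g 0 = 0 := by
  unfold chg
  rw [Finset.card_eq_zero, Finset.filter_eq_empty_iff]
  intro n _ h
  exact h (by rw [add_zero])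

lemma chg_add_le (g : G → α) (d d' : G) : chg g (d + d') ≤ chg g d + chg g d' := by
  classical
  have h1 : (univ.filter fun n => g (n + (d + d')) ≠ g n) ⊆
      (univ.filter fun n => g (n + d) ≠ g n) ∪ (univ.filter fun n => g (n + d + d') ≠ g (n + d)) := by
    intro n hn
    rw [Finset.mem_union, Finset.mem_filter, Finset.mem_filter]
    rw [Finset.mem_filter] at hn
    by_cases h : g (n + d) = g n
    · right
      refine ⟨Finset.mem_univ _, ?_⟩
      rw [h, add_assoc]
      exact hn.2
    · left
      exact ⟨Finset.mem_univ _, h⟩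
  have h2 : #(univ.filter fun n => g (n + d + d') ≠ g (n + d)) =
      #(univ.filter fun n => g (n + d') ≠ g n) := by
    refine Finset.card_bij' (fun n _ => n + d) (fun n _ => n - d) ?_ ?_ ?_ ?_
    · intro n hn
      rw [Finset.mem_filter] at hn ⊢
      exact ⟨Finset.mem_univ _, hn.2⟩
    · intro n hn
      rw [Finset.mem_filter] at hn ⊢
      refine ⟨Finset.mem_univ _, ?_⟩
      rw [sub_add_cancel]
      exact hn.2
    · intro n _
      exact add_sub_cancel_right n d
    · intro n _
      exact sub_add_cancel n d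
  calc chg g (d + d') = #(univ.filter fun n => g (n + (d + d')) ≠ g n) := rfl
    _ ≤ _ := Finset.card_le_card h1
    _ ≤ #(univ.filter fun n => g (n + d) ≠ g n) +
        #(univ.filter fun n => g (n + d + d') ≠ g (n + d)) := Finset.card_union_le _ _
    _ = chg g d + chg g d' := by rw [h2]; rfl

lemma chg_neg (g : G → α) (d : G) : chg g (-d) = chg g d := by
  unfold chg
  refine Finset.card_bij' (fun n _ => n - d) (fun n _ => n + d) ?_ ?_ ?_ ?_
  · intro n hn
    rw [Finset.mem_filter] at hn ⊢
    refine ⟨Finset.mem_univ _, ?_⟩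
    rw [sub_add_cancel, sub_eq_add_neg]
    exact fun h => hn.2 h.symm
  · intro n hn
    rw [Finset.mem_filter] at hn ⊢
    refine ⟨Finset.mem_univ _, ?_⟩
    rw [add_neg_cancel_right]
    exact fun h => hn.2 h.symm
  · intro n _
    exact sub_add_cancel n d
  · intro n _
    exact add_sub_cancel_right n d

lemma chg_sub_le (g : G → α) (d d' : G) : chg g (d - d') ≤ chg g d + chg g d' := by
  rw [sub_eq_add_neg]
  refine (chg_add_le g d (-d')).trans ?_
  rw [chg_neg]

lemma chg_nsmul_le (g : G → α) (k : ℕ) (d : G) : chg g (k • d) ≤ k * chg g d := by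
  induction k with
  | zero => rw [zero_smul, chg_zero, zero_mul]
  | succ k ih =>
    rw [succ_nsmul, Nat.succ_mul]
    exact (chg_add_le g _ _).trans (Nat.add_le_add_right ih _)

lemma chg_sum_le {ι : Type*} (g : G → α) (s : Finset ι) (d : ι → G) :
    chg g (∑ i ∈ s, d i) ≤ ∑ i ∈ s, chg g (d i) := by
  classical
  induction s using Finset.induction_on with
  | empty => rw [Finset.sum_empty, Finset.sum_empty, chg_zero]
  | insert a s ha ih =>
    rw [Finset.sum_insert ha, Finset.sum_insert ha]
    exact (chg_add_le g _ _).trans (Nat.add_le_add_left ih _)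

/-- shifts by a number with `q` digits -/
lemma chg_digits (g : G → α) (b q τ : ℕ) (hb : 0 < b) (hτ : τ < b ^ q) (v : G) :
    chg g (τ • v) ≤ (b - 1) * ∑ l ∈ range q, chg g (b ^ l • v) := by
  induction q generalizing τ with
  | zero =>
    have : τ = 0 := by
      rw [pow_zero] at hτ
      omega
    rw [this, zero_smul, chg_zero]
    exact Nat.zero_le _
  | succ q ih =>
    have hbq : 0 < b ^ q := Nat.pow_pos hb
    have h1 : τ = τ % b ^ q + τ / b ^ q * b ^ q := by
      have := Nat.mod_add_div τ (b ^ q)
      rw [Nat.mul_comm] at this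
      exact this.symm
    have h2 : τ / b ^ q ≤ b - 1 := by
      have h3 : τ / b ^ q < b := by
        rw [Nat.div_lt_iff_lt_mul hbq]
        rw [pow_succ, Nat.mul_comm] at hτ
        exact hτ
      omega
    have h4 : τ • v = (τ % b ^ q) • v + (τ / b ^ q) • (b ^ q • v) := by
      conv_lhs => rw [h1]
      rw [add_smul, mul_smul]
    rw [h4, Finset.sum_range_succ, Nat.mul_add]
    refine (chg_add_le g _ _).trans (Nat.add_le_add (ih _ (Nat.mod_lt _ hbq)) ?_)
    refine (chg_nsmul_le g _ _).trans ?_
    exact Nat.mul_le_mul_right _ h2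

/-- stability under the noise: for the shift by the sum of the `(τ B - τ' B) v B`, `B ∈ S` -/
theorem chg_noise {ι : Type*} (g : G → α) (b q : ℕ) (hb : 0 < b) (S : Finset ι) (v : ι → G)
    (τ τ' : ι → ℕ) (hτ : ∀ B ∈ S, τ B < b ^ q) (hτ' : ∀ B ∈ S, τ' B < b ^ q) :
    chg g (∑ B ∈ S, (τ B • v B - τ' B • v B)) ≤
      2 * (b - 1) * ∑ B ∈ S, ∑ l ∈ range q, chg g (b ^ l • v B) := by
  refine (chg_sum_le g S _).trans ?_
  rw [Finset.mul_sum]
  refine Finset.sum_le_sum fun B hB => ?_
  refine (chg_sub_le g _ _).trans ?_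
  have h1 := chg_digits g b q (τ B) hb (hτ B hB) (v B)
  have h2 := chg_digits g b q (τ' B) hb (hτ' B hB) (v B)
  have h3 : 2 * (b - 1) * ∑ l ∈ range q, chg g (b ^ l • v B) =
      (b - 1) * ∑ l ∈ range q, chg g (b ^ l • v B) +
      (b - 1) * ∑ l ∈ range q, chg g (b ^ l • v B) := by ring
  rw [h3]
  exact Nat.add_le_add h1 h2

end Pool.Agent.Helper43.SC
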